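import Pool.Agent.Helper38.TH.Final2

namespace Pool.Agent.Results.MP_fc6b1e_nt.AlmostAllTwists

open NumberField Module Pool.Agent.Helper51.SigLeo Pool.Agent.Helper38.FY Pool.Agent.Helper38.TH
open Pool.Agent.Helper38.FD (Chr)
open Pool.Agent.Helper38.FW (InDec IsOmega AllChr IsLocal IsWeight tame countChr)

/-- Let `p` be a prime, `K` a number field with algebraic closure `Ω`, and `D i`, `i` in a finite nonempty set,
characters `κ` of `Gal(Ω/K)` of finite order with values in `ℂ_p`, together with `p`-ordinary CM types `S` of `K`
(`BaseChr`). There is no other condition on `κ` and `S` if `p` is odd; if `p = 2`, the order of `κ` is not a power of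
`2`.

`AllChr p K` is the set of the pairs `(N, φ)`, `N/K` cyclic of degree `p` and `φ` a character with field `N`. Let
`A` be a nonempty subset given by conditions on the restrictions of `φ` to the decomposition groups above `p`
(`IsLocal`; for instance all the pairs). The pairs are ordered by `tame p K N * e (N, φ)`, where `tame p K N` is the
product of the norms of the primes ramified in `N` and not above `p`, and `e ≥ 1` depends only on the restrictions of
`φ` to the decomposition groups above `p` (`IsWeight`; for instance, `tame p K N * e (N, φ)` can be the norm of the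
conductor of `N`, or the product of the norms of all the ramified primes).

`IsTower η`: the characters `η n` (of order `p ^ n`, `η (n + 1) ^ p = η n`) define a `ℤ_p`-extension of `K`; every
`ℤ_p`-extension of `K` is obtained in this way. `Hat η` is the set of its characters of finite order.

`χ` is good if the map `log_{Σ,p}` is injective on the `χ`-part of `ℂ_p ⊗ (𝓞_H)ˣ`, `H` the field cut out by `χ`, and if
the same is true for all the conjugates of `χ` over `ℚ_p`.

For every `ℤ_p`-extension `η i` of `K`, for `100 %` of the pairs `(N, φ)` in `A`, for all `i` and for all but finitely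
many characters `ξ` of finite order of the `ℤ_p`-extension `η i`:

* `κ φ ξ` is good;
* let `η'` be a `ℤ_p`-extension of `K` in which every place above `p` which splits completely in `η i` splits
  completely (for instance `η i` itself; every `ℤ_p`-extension if no place above `p` splits completely in `η i`). Then
  `κ φ ξ ξ'` is good for all but finitely many characters `ξ'` of finite order of `η'`.

There is a `ℤ_p`-extension of `K` in which no place above `p` splits completely (the cyclotomic one), and `A` has
positive lower density in the set of all pairs `(N, φ)`. -/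
theorem result (p : ℕ) [Fact p.Prime] (K : Type) [Field K] [NumberField K]
    (ιinf : AlgebraicClosure K →+* ℂ) (ιp : AlgebraicClosure K →+* ℂ_[p])
    (L : IwasawaLog p ℂ_[p]) (ι : Type) [Fintype ι] [Nonempty ι] (D : ι → BaseChr ιinf ιp)
    (hD : ∀ i, p = 2 → ¬ IsOmega (D i).κ)
    (A : Set (IntermediateField K (AlgebraicClosure K) × Chr K (AlgebraicClosure K) ℂ_[p]))
    (hA : IsLocal A)
    (e : IntermediateField K (AlgebraicClosure K) × Chr K (AlgebraicClosure K) ℂ_[p] → ℕ)
    (he : IsWeight e) :
    (∀ X : ℕ, {x | x ∈ AllChr p K ∧ tame p K x.1 * e x ≤ X}.Finite) ∧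
    (∀ η : ι → ℕ → Chr K (AlgebraicClosure K) ℂ_[p], (∀ i, IsTower (η i)) →
      ∀ ε : ℝ, 0 < ε → ∀ᶠ X : ℕ in Filter.atTop,
      countChr e {x | x ∈ A ∧ ∃ i, {ξ | ξ ∈ Hat (η i) ∧ ¬ Full (D i) L (η i) x ξ}.Infinite} X ≤
        ε * countChr e A X) ∧
    (∃ η : ℕ → Chr K (AlgebraicClosure K) ℂ_[p], IsTower η ∧
      ∀ τ : AlgebraicClosure K →+* ℂ_[p], ∃ n g, InDec τ g ∧ η n g ≠ 1) ∧
    (∃ δ : ℝ, 0 < δ ∧ ∀ᶠ X : ℕ in Filter.atTop,
      0 < countChr e (AllChr p K) X ∧ δ * countChr e (AllChr p K) X ≤ countChr e A X) :=
  main_t p K ιinf ιp L ι D hD A hA e he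

end Pool.Agent.Results.MP_fc6b1e_nt.AlmostAllTwists
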