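import Pool.Agent.Helper38.SD.StmtEq

namespace Pool.Agent.Results.MP_fc6b1e_nt.CyclotomicTwists

open NumberField Module Pool.Agent.Helper51.SigLeo Pool.Agent.Helper38.SDS
open Pool.Agent.Helper38.SD (Cov FinOrd Gen IsCyclo)
open Pool.Agent.Helper16.SD (SplitP)
open Pool.Agent.Helper38.FD (Chr)
open Pool.Agent.Helper38.TH (Hat)

/-- Let `F` be a totally real number field of degree `d`, `K` a totally imaginary quadratic extension of `F` with
algebraic closure `Ω`, `p` a prime and `κ` a character of finite order of `G = Gal(Ω/K)` with values in `ℂ_p`, which is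
not invariant under complex conjugation: `κ(c g c⁻¹) ≠ κ(g)` for some `g` (if `d = 2`, it is enough that the field of
`κ` is not a CM field). For a character `χ` of finite order let `V_χ` be the `χ`-part of `ℂ_p ⊗ (𝓞_H)ˣ`, `H` the field
cut out by `χ`. For a set `T` of embeddings of `K` in `ℂ_p` let `kd` be the dimension of the subspace of `V_χ` where the
`p`-adic logarithms at all the embeddings of `H` above `T` vanish.

1. `kd ≤ d²/(d + |T|)` for `χ = κ` and all `T` (`Bd₁`). Every set `P` of at most two embeddings of `K` in `ℂ`,
   not complex conjugate to each other, is contained in a CM type `S` for which the kernel of `log_{S,p}` on `V_κ` has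
   dimension at most `d/3`; if `d = 2` (when this says that `log_{S,p}` is injective, and `P`, if it has two elements,
   is itself a CM type) with the exception of at most one `P` and its complex conjugate.
2. Let `p` be odd and split completely in `K`, and let `η` be the cyclotomic `ℤ_p`-extension of `K`. For all but
   finitely many of its characters `ξ` of finite order, `χ = κ ξ` has the following properties (`Rich`): `Bd₁` holds,
   and `kd ≤ (2 d - |T|)²/(3 d - |T|)` for all `T` (so `kd = 0` if `|T| > 2 d - √d`); every `P` as above is contained in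
   a `p`-ordinary CM type `S` which is good for `χ`, i.e. for which the `Σ`-Leopoldt conjecture holds for `χ` and its
   conjugates over `ℚ_p` (if `d` is even, with the exception of at most one `P` and its complex conjugate); there are at
   least `d` (at least `d + 1`, if `d` is odd) such CM types; and for every `ℤ_p`-extension `η'` of `K` and all but
   finitely many of its characters `ξ'` of finite order, `χ ξ'` satisfies the same bounds, and every `S` which is good
   for `χ` is good for `χ ξ'`.
3. The cyclotomic `ℤ_p`-extension exists. -/
theorem result (p : ℕ) [Fact p.Prime] (F K : Type) [Field F] [NumberField F] [IsTotallyReal F]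
    [Field K] [NumberField K] [IsTotallyComplex K] [Algebra F K] (hK : finrank F K = 2)
    (ιinf : AlgebraicClosure K →+* ℂ) (ιp : AlgebraicClosure K →+* ℂ_[p])
    (L : IwasawaLog p ℂ_[p]) (κ : Chr K (AlgebraicClosure K) ℂ_[p]) (hκ : FinOrd κ)
    (hg : Gen (finrank ℚ F) ιinf κ) :
    (Bd₁ (finrank ℚ F) L κ ∧
      Cov (finrank ℚ F = 2) (Third (finrank ℚ F) ιinf ιp L κ)) ∧
    (p ≠ 2 → SplitP p K → ∀ η : ℕ → Chr K (AlgebraicClosure K) ℂ_[p], IsCyclo η →
      {ξ | ξ ∈ Hat η ∧ ¬ Rich (finrank ℚ F) ιinf ιp L (κ * ξ)}.Finite) ∧
    ∃ η : ℕ → Chr K (AlgebraicClosure K) ℂ_[p], IsCyclo η :=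
  main_sds p F K hK ιinf ιp L κ hκ hg

end Pool.Agent.Results.MP_fc6b1e_nt.CyclotomicTwists
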