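import Pool.Agent.Helper38.FY.Final

namespace Pool.Agent.Results.MP_fc6b1e_nt.DensityOfAllTwists

open NumberField Module Pool.Agent.Helper51.SigLeo Pool.Agent.Helper38.FY
open Pool.Agent.Helper38.FD (Chr)
open Pool.Agent.Helper38.FW (AllChr IsLocal IsWeight tame countChr)

/-- Let `p` be a prime, `K` a number field with algebraic closure `Ω`, and `D i`, `i` in a finite nonempty set,
characters `κ` of `Gal(Ω/K)` of finite order with values in `ℂ_p`, together with `p`-ordinary CM types `S` of `K`
(`BaseChr`). There is no other condition on `κ` and `S`.

`AllChr p K` is the set of the pairs `(N, φ)`, `N/K` cyclic of degree `p` and `φ` a character with field `N`. Let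
`A` be a nonempty subset given by conditions on the restrictions of `φ` to the decomposition groups above `p`
(`IsLocal`; for instance all the pairs). The pairs are ordered by `tame p K N * e (N, φ)`, where `tame p K N` is the
product of the norms of the primes ramified in `N` and not above `p`, and `e ≥ 1` depends only on the restrictions of
`φ` to the decomposition groups above `p` (`IsWeight`; for instance, `tame p K N * e (N, φ)` can be the norm of the
conductor of `N`, or the product of the norms of all the ramified primes).

`(N, φ)` is good for `D i` if the map `log_{Σ,p}` is injective on the `χ`-part of `ℂ_p ⊗ (𝓞_H)ˣ`, `H` the field cut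
out by `χ`, for `χ = κ φ` and all its conjugates over `ℚ_p`. Let `Q` be the number of elements of the finite field
generated by the values of `κ` modulo the maximal ideal and let `ω` be the cyclotomic character modulo `p`. Let
`theta = √Q/(Q - 1)` if some `κ^(1 + p^j)` is congruent to `ω` and `κ²` is not, and `theta = 1/(Q - 1)` otherwise
(`theta < 1` unless `p = 2` and the order of `κ` is a power of `2`).

* The set of the pairs in `A` which are not good for at least one `i` has upper density at most `∑ i, theta` in `A`.
* `A` has positive lower density in the set of all pairs `(N, φ)`. -/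
theorem result (p : ℕ) [Fact p.Prime] (K : Type) [Field K]
    [NumberField K] (ιinf : AlgebraicClosure K →+* ℂ) (ιp : AlgebraicClosure K →+* ℂ_[p])
    (L : IwasawaLog p ℂ_[p]) (ι : Type) [Fintype ι] [Nonempty ι] (D : ι → BaseChr ιinf ιp)
    (A : Set (IntermediateField K (AlgebraicClosure K) × Chr K (AlgebraicClosure K) ℂ_[p]))
    (hA : IsLocal A)
    (e : IntermediateField K (AlgebraicClosure K) × Chr K (AlgebraicClosure K) ℂ_[p] → ℕ)
    (he : IsWeight e) :
    (∀ X : ℕ, {x | x ∈ AllChr p K ∧ tame p K x.1 * e x ≤ X}.Finite) ∧
    (∀ η : ℝ, 0 < η → ∀ᶠ X : ℕ in Filter.atTop,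
      countChr e {x | x ∈ A ∧ ∃ i, ¬ (D i).Good L x} X ≤
        (∑ i, (D i).theta + η) * countChr e A X) ∧
    (∃ δ : ℝ, 0 < δ ∧ ∀ᶠ X : ℕ in Filter.atTop,
      0 < countChr e (AllChr p K) X ∧ δ * countChr e (AllChr p K) X ≤ countChr e A X) :=
  main_y p K ιinf ιp L ι D A hA e he

end Pool.Agent.Results.MP_fc6b1e_nt.DensityOfAllTwists
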