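import Pool.Agent.Helper16.SB.Main2

namespace Pool.Agent.Results.MP_fc6b1e_nt.SymmetricCharacters

open NumberField Module Pool.Agent.Helper51.SigLeo Pool.Agent.Helper38.SDS
open Pool.Agent.Helper38.SD (FinOrd Gen IsCyclo)
open Pool.Agent.Helper38.SC (Sym)
open Pool.Agent.Helper16.SB (AllGood)
open Pool.Agent.Helper16.SD (SplitP)
open Pool.Agent.Helper38.FD (Chr CutsOut)
open Pool.Agent.Helper38.TH (Hat)

/-- Let `K` be a totally complex number field, cyclic of degree `2 d` over `ℚ`, `g` a generator of its Galois group, `p` a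
prime which splits completely in `K`, and `κ` a character of finite order of `G = Gal(Ω/K)` (`Ω` the algebraic closure) with
values in `ℂ_p`, not invariant under complex conjugation (or `d = 2` and the field of `κ` is not a CM field).

1. Let `p` be odd, let `η` be the cyclotomic `ℤ_p`-extension of `K`, and suppose that `κ` is symmetric up to a character of
   `η`: `κ ^ γ = τ(κ) ξ'` for some extension `γ` of `g` to `Ω`, some automorphism `τ` of `ℂ_p` over `ℚ_p` and some `ξ'` in the
   set `Hat η` of the characters of finite order of `η`. Then for all but finitely many `ξ ∈ Hat η` the character `χ = κ ξ`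
   has the following property (`AllGood`): the `Σ`-Leopoldt conjecture holds for `χ` and its conjugates over `ℚ_p` and for all
   the CM types `Σ = {φ, φ g', …, φ g'^(d-1)}`, where `g'` is a generator of the Galois group; if `d = 2` or `d = 4`, for
   all the CM types; if `d = 3`, for all the primitive ones; and for every `ℤ_p`-extension `η'` of `K` the same is true for
   `χ ξ'`, for all but finitely many characters `ξ'` of finite order of `η'`.
2. If `d = 2` and `κ ^ γ = τ(κ)`, then the `Σ`-Leopoldt conjecture holds for `κ` and all the CM types `Σ`.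
3. If the field of `κ` is a Galois extension of `ℚ` and the order of `κ` divides `2 p ^ a` for some `a`, then
   `κ ^ γ = τ(κ)` for some `γ` and `τ` as above. -/
theorem result (p : ℕ) [Fact p.Prime] (K : Type) [Field K] [NumberField K] [IsTotallyComplex K]
    (d : ℕ) (hd : finrank ℚ K = 2 * d) (g : K ≃ₐ[ℚ] K) (hg : orderOf g = 2 * d)
    (hs : SplitP p K) (ιinf : AlgebraicClosure K →+* ℂ) (ιp : AlgebraicClosure K →+* ℂ_[p])
    (L : IwasawaLog p ℂ_[p]) (κ : Chr K (AlgebraicClosure K) ℂ_[p]) (hκ : FinOrd κ)
    (hG : Gen d ιinf κ) :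
    (p ≠ 2 → ∀ η : ℕ → Chr K (AlgebraicClosure K) ℂ_[p], IsCyclo η → Sym (Hat η) g κ →
      {ξ | ξ ∈ Hat η ∧ ¬ AllGood d g ιinf ιp L (κ * ξ)}.Finite) ∧
    (d = 2 → Sym {1} g κ → ∀ S : Set (K →+* ℂ), IsCMType S → GoodFor ιinf ιp L S κ) ∧
    (∀ (H : IntermediateField K (AlgebraicClosure K)) (a : ℕ), CutsOut κ H → IsGalois ℚ H →
      κ ^ (2 * p ^ a) = 1 → Sym {1} g κ) :=
  Pool.Agent.Helper16.SB.main_sb2 p K d hd g hg hs ιinf ιp L κ hκ hG

end Pool.Agent.Results.MP_fc6b1e_nt.SymmetricCharacters
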